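import Pool.Agent.SGD.Stmts
import Pool.Agent.Helper56_SGP.CTR
import Pool.Agent.Helper17_SGP.RMV
import Pool.Agent.Helper56_SGY.CAP

/-!
# SGD, row STP: a contour vertex is moved into the cluster
-/

set_option autoImplicit false

namespace Pool.Agent.SGD.H95

open Pool.Agent.SGE Pool.Agent.SGP Pool.Agent.SGY

theorem con_mem {V : Type} {C : List V} {x y : V} (h : Con C x y) : x ∈ C ∧ y ∈ C := by
  obtain ⟨P, Q, rfl⟩ := h
  simp

theorem chain_of_con {V : Type} {R : V → V → Prop} {C : List V} (hc : C.IsChain R) {x y : V}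
    (h : Con C x y) : R x y := by
  obtain ⟨P, Q, rfl⟩ := h
  have h1 := List.isChain_append.1 hc
  exact (List.isChain_cons_cons.1 h1.2.1).1

/-- the pure part: the vertex `v` with the list `Y` of neighbours -/
theorem stp_aux (bnd : BndStmt) (sub : SubStmt) {V : Type} [Fintype V] {a b c : V}
    {E : V → V → Prop} {F : V → V → V → Prop} {K : Set V} {C₁ C₂ : List V}
    (h : Stt a b c E F K C₁ C₂) (v : V) (hv : v ∉ K ∪ {a, c}) (Y' : List V)
    (hlen : ∃ x y L, Y' = x :: y :: L) (hmem : ∀ y, y ∈ Y' ↔ E v y ∧ y ∈ K ∪ {a, c})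
    (hcon : ∀ x y, Con Y' x y ↔ F x y v ∧ x ∈ K ∪ {a, c} ∧ y ∈ K ∪ {a, c})
    (hla : ∀ y, ¬ Con Y' a y) :
    ∃ C₂', NT c a C₂' (onE E (insert v K ∪ {a, c})) (onF F (insert v K ∪ {a, c})) := by
  have hsub : ∀ x y, Con Y' x y → Con C₂ x y := by
    intro x y hxy
    obtain ⟨h1, h2, h3⟩ := (hcon x y).1 hxy
    rcases bnd h.n2 x y ⟨h.nt.fe _ _ _ h1, h2, h3⟩ (fun z hz => hv (by
      rw [← h.nt.fn _ _ _ _ hz.1 h1]
      exact hz.2.2.2)) with h4 | ⟨h4, -⟩
    · exact h4
    · rw [h4] at hxy
      exact absurd hxy (hla y)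
  obtain ⟨x, y, L, hY⟩ := hlen
  have hchain : (x :: y :: L).IsChain (Con C₂) := by
    have h1 : Y'.IsChain (Con ([] ++ Y')) := H56.chain_con [] Y'
    rw [List.nil_append] at h1
    rw [← hY]
    exact h1.imp hsub
  obtain ⟨P', Q', hC₂⟩ := sub h.n2.nd x y L hchain
  obtain ⟨mid', q', hq'⟩ : ∃ mid' q', y :: L = mid' ++ [q'] := by
    rcases List.eq_nil_or_concat (y :: L) with h1 | ⟨A, t, h1⟩
    · exact absurd h1 (List.cons_ne_nil _ _)
    · exact ⟨A, t, by rw [h1, List.concat_eq_append]⟩
  have hY2 : Y' = x :: (mid' ++ [q']) := by rw [hY, hq']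
  have hC₂' : C₂ = P' ++ x :: (mid' ++ q' :: Q') := by
    rw [hC₂, hq']
    simp
  have hn2 := h.n2
  rw [hC₂'] at hn2
  have hcap := Pool.Agent.SGY.H56.cap hn2 (v := v) (fun z hz => hv hz.2.1)
  rw [← hY2] at hcap
  refine ⟨P' ++ x :: v :: q' :: Q', ?_⟩
  have hins : insert v K ∪ {a, c} = insert v (K ∪ {a, c}) := Set.insert_union
  have hE : cE (onE E (K ∪ {a, c})) v Y' = onE E (insert v K ∪ {a, c}) := by
    rw [hins]
    funext s t
    apply propext
    simp only [cE, onE, Set.mem_insert_iff]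
    constructor
    · rintro (⟨h1, h2, h3⟩ | ⟨rfl, h2⟩ | ⟨rfl, h2⟩)
      · exact ⟨h1, Or.inr h2, Or.inr h3⟩
      · obtain ⟨h3, h4⟩ := (hmem t).1 h2
        exact ⟨h3, Or.inl rfl, Or.inr h4⟩
      · obtain ⟨h3, h4⟩ := (hmem s).1 h2
        exact ⟨h.nt.sym _ _ h3, Or.inr h4, Or.inl rfl⟩
    · rintro ⟨h1, h2 | h2, h3 | h3⟩
      · rw [h2, h3] at h1
        exact absurd h1 (h.nt.irr v)
      · subst h2
        exact Or.inr (Or.inl ⟨rfl, (hmem t).2 ⟨h1, h3⟩⟩)
      · subst h3
        exact Or.inr (Or.inr ⟨rfl, (hmem s).2 ⟨h.nt.sym _ _ h1, h2⟩⟩)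
      · exact Or.inl ⟨h1, h2, h3⟩
  have hF : cF (onF F (K ∪ {a, c})) v Y' = onF F (insert v K ∪ {a, c}) := by
    rw [hins]
    funext s t u
    apply propext
    simp only [cF, onF, Set.mem_insert_iff]
    constructor
    · rintro (⟨h1, h2, h3, h4⟩ | ⟨h1, rfl⟩ | ⟨h1, rfl⟩ | ⟨h1, rfl⟩)
      · exact ⟨h1, Or.inr h2, Or.inr h3, Or.inr h4⟩
      · obtain ⟨h2, h3, h4⟩ := (hcon _ _).1 h1
        exact ⟨h2, Or.inr h3, Or.inr h4, Or.inl rfl⟩
      · obtain ⟨h2, h3, h4⟩ := (hcon _ _).1 h1
        exact ⟨h.nt.rot _ _ _ (h.nt.rot _ _ _ h2), Or.inl rfl, Or.inr h3, Or.inr h4⟩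
      · obtain ⟨h2, h3, h4⟩ := (hcon _ _).1 h1
        exact ⟨h.nt.rot _ _ _ h2, Or.inr h4, Or.inl rfl, Or.inr h3⟩
    · rintro ⟨h1, h2, h3, h4⟩
      have e1 : E s t := h.nt.fe _ _ _ h1
      have e2 : E t u := h.nt.fe _ _ _ (h.nt.rot _ _ _ h1)
      have e3 : E u s := h.nt.fe _ _ _ (h.nt.rot _ _ _ (h.nt.rot _ _ _ h1))
      rcases h4 with h4 | h4
      · subst h4
        rcases h2 with h2 | h2
        · subst h2
          exact absurd e3 (h.nt.irr _)
        rcases h3 with h3 | h3
        · subst h3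
          exact absurd e2 (h.nt.irr _)
        exact Or.inr (Or.inl ⟨(hcon _ _).2 ⟨h1, h2, h3⟩, rfl⟩)
      rcases h2 with h2 | h2
      · subst h2
        rcases h3 with h3 | h3
        · subst h3
          exact absurd e1 (h.nt.irr _)
        exact Or.inr (Or.inr (Or.inl ⟨(hcon _ _).2 ⟨h.nt.rot _ _ _ h1, h3, h4⟩, rfl⟩))
      rcases h3 with h3 | h3
      · subst h3
        exact Or.inr (Or.inr (Or.inr
          ⟨(hcon _ _).2 ⟨h.nt.rot _ _ _ (h.nt.rot _ _ _ h1), h4, h2⟩, rfl⟩))
      exact Or.inl ⟨h1, h2, h3, h4⟩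
  rw [← hE, ← hF]
  exact hcap

theorem stp (bnd : BndStmt) (sub : SubStmt) (arc : ArcStmt) : StpStmt := by
  intro V _ a b c E F K C₁ C₂ h P p v q Q hC hch hp
  subst hC
  have hoff : ∀ x ∈ P ++ p :: v :: q :: Q, x ∉ K ∪ {c} := by
    intro x hx
    obtain ⟨y, hy⟩ := H56.contour_nb h.n1 hx
    exact hy.2.1
  have hnd := h.n1.nd
  have hhd := h.n1.hd
  have hls := h.n1.ls
  have hpC : p ∈ P ++ p :: v :: q :: Q := by simp
  have hvC : v ∈ P ++ p :: v :: q :: Q := by simp
  have hqC : q ∈ P ++ p :: v :: q :: Q := by simp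
  have haC : a ∈ P ++ p :: v :: q :: Q := List.mem_of_head? hhd
  have hpK := hoff p hpC
  have hvK := hoff v hvC
  have hqK := hoff q hqC
  have haK := hoff a haC
  have hnd2 : (p :: v :: q :: Q).Nodup := (List.nodup_append.1 hnd).2.1
  have hpv : p ≠ v := by
    rintro rfl
    simp at hnd2
  have hpq : p ≠ q := by
    rintro rfl
    simp at hnd2
  have hvq : v ∉ q :: Q := (List.nodup_cons.1 (List.nodup_cons.1 hnd2).2).1
  have ha : a ∉ v :: q :: Q := by
    rcases P with _ | ⟨x, P'⟩
    · simp only [List.nil_append, List.head?_cons, Option.some.injEq] at hhd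
      rw [← hhd]
      exact (List.nodup_cons.1 hnd2).1
    · simp only [List.cons_append, List.head?_cons, Option.some.injEq] at hhd
      rw [hhd] at hnd
      have h1 := (List.nodup_cons.1 hnd).1
      intro h2
      exact h1 (List.mem_append_right _ (List.mem_cons_of_mem _ h2))
  have hva : v ≠ a := by
    rintro rfl
    simp at ha
  have hqa : q ≠ a := by
    rintro rfl
    simp at ha
  have hvb : v ≠ b := by
    rintro rfl
    apply hvq
    have h1 : P ++ p :: v :: q :: Q = (P ++ [p, v]) ++ q :: Q := by simp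
    rw [h1, List.getLast?_append, List.getLast?_eq_some_getLast (List.cons_ne_nil q Q),
      Option.some_or, Option.some.injEq] at hls
    rw [← hls]
    exact List.getLast_mem _
  have hvc : v ≠ c := by
    rintro rfl
    exact hvK (Or.inr rfl)
  have hvK' : v ∉ K := fun h1 => hvK (Or.inl h1)
  have hvS : v ∉ K ∪ {a, c} := by
    rintro (h1 | h1 | h1)
    · exact hvK' h1
    · exact hva h1
    · exact hvc h1
  refine ⟨hvK', ?_⟩
  -- the outer part
  obtain ⟨mid, hn1, hnb, hmc, -⟩ := Pool.Agent.SGP.H17.rmv h.n1 (fun x hx hvx => hch x hx hvx.1)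
  have hrE : rE (offE E (K ∪ {c})) v = offE E (insert v K ∪ {c}) := by
    funext s t
    apply propext
    simp only [rE, offE, Set.insert_union, Set.mem_insert_iff, not_or]
    tauto
  have hrF : rF (offF F (K ∪ {c})) v = offF F (insert v K ∪ {c}) := by
    funext s t u
    apply propext
    simp only [rF, offF, Set.insert_union, Set.mem_insert_iff, not_or]
    tauto
  rw [hrE, hrF] at hn1
  have hr1 : ∀ x, Rel E x → x ∉ insert v K ∪ {c} → Rel (offE E (insert v K ∪ {c})) x := by
    intro x hx hxK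
    rw [Set.insert_union, Set.mem_insert_iff, not_or] at hxK
    obtain ⟨y, hy⟩ := h.r1 x hx hxK.2
    by_cases hyv : y = v
    · rw [hyv] at hy
      have h1 := (hnb x).1 (h.n1.sym _ _ hy)
      have h2 : x ∈ P ++ p :: (mid ++ q :: Q) := by
        simp only [List.mem_cons, List.mem_append, List.not_mem_nil, or_false] at h1 ⊢
        tauto
      exact H56.contour_nb hn1 h2
    · rw [← hrE]
      exact ⟨y, hy, hxK.1, hyv⟩
  -- the list of neighbours
  obtain ⟨Y, hY0, hYc, hYn, hYm⟩ := arc h P p v q Q rfl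
  have hevp : E v p := ((hnb p).2 (by simp)).1
  have haY : a ∉ Y := fun h1 => haK ((hYm a).1 h1).2
  have hS : ∀ y, y ∈ K ∪ {a, c} ↔ y ∈ K ∪ {c} ∨ y = a := by
    intro y
    simp only [Set.mem_union, Set.mem_insert_iff, Set.mem_singleton_iff]
    tauto
  have hYS : ∀ y ∈ Y, E v y ∧ y ∈ K ∪ {a, c} := by
    intro y hy
    obtain ⟨h1, h2⟩ := (hYm y).1 hy
    exact ⟨h1, (hS y).2 (Or.inl h2)⟩
  -- faces at `v` with one end in `Y`
  have hface : ∀ x y, F v x y → x ∈ Y → Con Y x y ∨ (y = p ∧ ∃ A, Y = A ++ [x]) := by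
    intro x y hxy hx
    obtain ⟨A, B, hAB⟩ := List.append_of_mem hx
    rw [hAB] at hYc
    rcases B with _ | ⟨t, B⟩
    · right
      have h1 : Con (q :: (A ++ [x] ++ [p])) x p := ⟨q :: A, [], by simp⟩
      have h2 := chain_of_con hYc h1
      exact ⟨h.nt.fn _ _ _ _ hxy h2, A, hAB⟩
    · left
      have h1 : Con (q :: (A ++ x :: t :: B ++ [p])) x t := ⟨q :: A, B ++ [p], by simp⟩
      have h2 := chain_of_con hYc h1
      rw [h.nt.fn _ _ _ _ hxy h2, hAB]
      exact ⟨A, B, rfl⟩
  have hYcon : ∀ x y, Con Y x y → F x y v := by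
    intro x y hxy
    have h1 : Con (q :: (Y ++ [p])) x y := by
      have h2 : Con ([q] ++ (Y ++ [p])) x y := H56.con_right (H56.con_left hxy)
      exact h2
    exact h.nt.rot _ _ _ (chain_of_con hYc h1)
  have hn2 : ∃ C₂', NT c a C₂' (onE E (insert v K ∪ {a, c})) (onF F (insert v K ∪ {a, c})) := by
    by_cases hpa : p = a
    · -- `Y' = Y ++ [a]`
      subst hpa
      have hfan : ∀ y, F v p y → y ∉ K ∪ {c} := by
        intro y hy
        obtain ⟨t, L, ht⟩ : ∃ t L, mid ++ [q] = t :: L := by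
          rcases mid with _ | ⟨t, L⟩
          · exact ⟨q, [], rfl⟩
          · exact ⟨t, L ++ [q], rfl⟩
        rw [ht] at hmc
        have h1 := (List.isChain_cons_cons.1 hmc).1
        have h2 : F v p t := h.nt.rot _ _ _ (h.nt.rot _ _ _ h1.1)
        rw [h.nt.fn _ _ _ _ hy h2]
        exact h1.2.2.1
      refine stp_aux bnd sub h v hvS (Y ++ [p]) ?_ ?_ ?_ ?_
      · rcases Y with _ | ⟨x, Y⟩
        · exact absurd rfl hY0
        · rcases Y with _ | ⟨y, Y⟩
          · exact ⟨x, p, [], rfl⟩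
          · exact ⟨x, y, Y ++ [p], rfl⟩
      · intro y
        rw [List.mem_append, List.mem_singleton]
        constructor
        · rintro (h1 | h1)
          · exact hYS y h1
          · rw [h1]
            exact ⟨hevp, (hS p).2 (Or.inr rfl)⟩
        · rintro ⟨h1, h2⟩
          rcases (hS y).1 h2 with h3 | h3
          · exact Or.inl ((hYm y).2 ⟨h1, h3⟩)
          · exact Or.inr h3
      · intro x y
        constructor
        · intro hxy
          have h1 : Con (q :: (Y ++ [p])) x y := by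
            have h2 : Con ([q] ++ (Y ++ [p])) x y := H56.con_right hxy
            exact h2
          have h2 := h.nt.rot _ _ _ (chain_of_con hYc h1)
          have h3 : ∀ z ∈ Y ++ [p], z ∈ K ∪ {p, c} := by
            intro z hz
            rcases List.mem_append.1 hz with h4 | h4
            · exact (hYS z h4).2
            · rw [List.mem_singleton.1 h4]
              exact (hS p).2 (Or.inr rfl)
          exact ⟨h2, h3 x (con_mem hxy).1, h3 y (con_mem hxy).2⟩
        · rintro ⟨h1, h2, h3⟩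
          have h4 : F v x y := h.nt.rot _ _ _ (h.nt.rot _ _ _ h1)
          rcases (hS x).1 h2 with h5 | h5
          · have h6 : x ∈ Y := (hYm x).2 ⟨h.nt.fe _ _ _ h4, h5⟩
            rcases hface x y h4 h6 with h7 | ⟨h7, A, h8⟩
            · exact H56.con_left h7
            · rw [h7, h8]
              exact ⟨A, [], by simp⟩
          · exfalso
            subst h5
            have h6 := hfan y h4
            rcases (hS y).1 h3 with h7 | h7
            · exact h6 h7
            · subst h7
              exact h.nt.irr _ (h.nt.fe _ _ _ h1)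
      · rintro y ⟨A, B, hAB⟩
        have h1 : p ∈ Y := by
          have h2 : Y ++ [p] = (A ++ [p]) ++ y :: B := by simp [hAB]
          rcases List.append_eq_append_iff.1 h2 with ⟨l, h3, h4⟩ | ⟨l, h3, h4⟩
          · rcases l with _ | ⟨t, l⟩
            · rw [List.append_nil] at h3
              rw [← h3]
              simp
            · have h5 := congrArg List.length h4
              simp at h5
          · rw [h3]
            simp
        exact haY h1
    · -- `Y' = Y`
      refine stp_aux bnd sub h v hvS Y ?_ ?_ ?_ ?_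
      · rcases hp with hp | ⟨y, y', hyy, hy, hy', e1, e2⟩
        · exact absurd hp hpa
        · have m1 := (hYm y).2 ⟨e1, hy⟩
          have m2 := (hYm y').2 ⟨e2, hy'⟩
          rcases Y with _ | ⟨s, Y⟩
          · simp at m1
          · rcases Y with _ | ⟨t, Y⟩
            · rw [List.mem_singleton] at m1 m2
              exact absurd (m1.trans m2.symm) hyy
            · exact ⟨s, t, Y, rfl⟩
      · intro y
        constructor
        · exact hYS y
        · rintro ⟨h1, h2⟩
          rcases (hS y).1 h2 with h3 | h3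
          · exact (hYm y).2 ⟨h1, h3⟩
          · exfalso
            subst h3
            rcases hch y haC h1 with h4 | h4
            · exact hpa h4.symm
            · exact hqa h4.symm
      · intro x y
        constructor
        · intro hxy
          exact ⟨hYcon x y hxy, (hYS x (con_mem hxy).1).2, (hYS y (con_mem hxy).2).2⟩
        · rintro ⟨h1, h2, h3⟩
          have h4 : F v x y := h.nt.rot _ _ _ (h.nt.rot _ _ _ h1)
          rcases (hS x).1 h2 with h5 | h5
          · have h6 : x ∈ Y := (hYm x).2 ⟨h.nt.fe _ _ _ h4, h5⟩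
            rcases hface x y h4 h6 with h7 | ⟨h7, -⟩
            · exact h7
            · exfalso
              rcases (hS y).1 h3 with h8 | h8
              · rw [h7] at h8
                exact hpK h8
              · exact hpa (h7.symm.trans h8)
          · exfalso
            subst h5
            rcases hch x haC (h.nt.fe _ _ _ h4) with h6 | h6
            · exact hpa h6.symm
            · exact hqa h6.symm
      · intro y hy
        exact haY (con_mem hy).1
  obtain ⟨C₂', hn2⟩ := hn2
  obtain ⟨y₀, hy₀⟩ := List.exists_mem_of_ne_nil Y hY0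
  refine ⟨_, C₂', h.nt, ?_, hn1, hn2, hr1, ?_⟩
  · intro x hx
    rcases Set.mem_insert_iff.1 hx with h1 | h1
    · rw [h1]
      exact ⟨hva, hvb, hvc, p, hevp⟩
    · exact h.sub h1
  · intro x hx
    rcases Set.mem_insert_iff.1 hx with h1 | h1
    · rw [h1]
      refine ⟨y₀, (hYS y₀ hy₀).1, Or.inl (Set.mem_insert v K), ?_⟩
      rcases (hYS y₀ hy₀).2 with h2 | h2
      · exact Or.inl (Set.mem_insert_of_mem v h2)
      · exact Or.inr h2
    · obtain ⟨y, hy⟩ := h.r2 x h1
      refine ⟨y, hy.1, Or.inl (Set.mem_insert_of_mem v h1), ?_⟩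
      rcases hy.2.2 with h2 | h2
      · exact Or.inl (Set.mem_insert_of_mem v h2)
      · exact Or.inr h2

end Pool.Agent.SGD.H95
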